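import Pool.Agent.H6.N4D.TB

/-!
# The residual function is almost constant along the edges of the prime numbers
-/

set_option autoImplicit false

open Finset Pool.Agent.H6.N4D

namespace Pool.Agent.H50.N4D

theorem sr_eq {w : ℝ} (hw : |w| < 1 / 2) (n : ℤ) : sr (w + n) = w := by
  have h0 : round w = 0 := by
    rw [round_eq_zero_iff]
    obtain ⟨h1, h2⟩ := abs_lt.1 hw
    exact ⟨h1.le, h2⟩
  unfold sr
  rw [round_add_intCast, h0]
  push_cast
  ring

/-- The residual difference. -/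
noncomputable def gg (S : Par) (θ : ℤ → ℝ) (k : ℕ) (T : ℝ) (t : ℤ) : ℝ :=
  θ (t + 2 ^ k) - θ t - T * (Real.exp (-(2 ^ k * S.h)) - 1) / S.x t

theorem F2_eq (S : Par) (ε₁ : ℝ) (θ : ℤ → ℝ) (k : ℕ) (T : ℝ) (t : ℤ) :
    F2 S ε₁ θ k T t = Phi (S.rho * S.x t / ε₁ * sr (gg S θ k T t)) := rfl

/-- At most one prime number for every point. -/
theorem cnt_disj (S : Par) (Q : Finset ℕ) (B : ℕ → ℤ → Prop)
    (h : ∀ t ∈ S.I, ∀ p ∈ Q, ∀ q ∈ Q, B p t → B q t → p = q) :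
    ∑ p ∈ Q, S.cnt (B p) ≤ (S.I.card : ℝ) := by
  classical
  unfold Par.cnt
  rw [← Nat.cast_sum, Nat.cast_le, ← card_biUnion]
  · apply card_le_card
    intro t ht
    obtain ⟨p, -, hp⟩ := mem_biUnion.1 ht
    exact (Par.mem_fl.1 hp).1
  · intro p hp q hq hpq
    rw [Function.onFun, Finset.disjoint_left]
    intro t h1 h2
    have h1' := Par.mem_fl.1 h1
    have h2' := Par.mem_fl.1 h2
    exact hpq (h t h1'.1 p hp q hq h1'.2 h2'.2)

/-- One edge: the residual differences, up to a small error. -/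
theorem edge {S : Par} {ε₀ ε₁ ε' T : ℝ} {θ : ℤ → ℝ} {φ : ℤ → ℝ} {p k : ℕ} {t : ℤ}
    (hp : 1 ≤ p) (hh : 0 < S.h) (hh1 : S.h ≤ 1) (hρ : 0 < S.rho)
    (hhρ : S.h ≤ S.rho ^ 4) (hρε : 200 * S.rho ^ 3 ≤ ε' / 1000)
    (hl : |S.h * S.l p - Real.log p| ≤ S.h / 2) (hε₁ : 0 < ε₁) (hε₀ : 0 ≤ ε₀)
    (hε₀1 : ε₀ ≤ ε' * ε₁ / 100) (hT : |T| ≤ 200 * ε₁ / S.rho ^ 2)
    (hE1 : OEd S ε₀ θ φ p t) (hE2 : OEd S ε₀ θ φ p (t + 2 ^ k)) :
    ∃ (n : ℤ) (e : ℝ), gg S θ k T (t - S.l p) = p * gg S θ k T t + e + n ∧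
      |e| ≤ (p * (ε₁ / (S.rho * S.x t))) * (ε' / 40) := by
  have hx := Par.x_pos (S := S) t
  obtain ⟨h1, -⟩ := hE1
  obtain ⟨h2, -⟩ := hE2
  have heq : t + 2 ^ k - S.l p = t - S.l p + 2 ^ k := by ring
  rw [heq] at h2
  set t' := t - S.l p with ht'
  obtain ⟨n1, hn1⟩ := exists_int (θ t' - p * θ t)
  obtain ⟨n2, hn2⟩ := exists_int (θ (t' + 2 ^ k) - p * θ (t + 2 ^ k))
  rw [← hn1] at h1
  rw [← hn2] at h2
  set c := Real.exp (-(2 ^ k * S.h)) - 1 with hc
  have hc1 : |c| ≤ 1 := by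
    have h3 : 0 < Real.exp (-(2 ^ k * S.h)) := Real.exp_pos _
    have h4 : Real.exp (-(2 ^ k * S.h)) ≤ 1 := by
      rw [Real.exp_le_one_iff]
      have : 0 < 2 ^ k * S.h := by positivity
      linarith
    rw [abs_le]
    constructor <;> linarith
  set E1 := θ t' - p * θ t - n1 with hE1
  set E2 := θ (t' + 2 ^ k) - p * θ (t + 2 ^ k) - n2 with hE2
  refine ⟨n2 - n1, E2 - E1 + T * c * (p / S.x t - 1 / S.x t'), ?_, ?_⟩
  · unfold gg
    rw [hE1, hE2, ← hc]
    push_cast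
    ring
  · have hp0 : (0 : ℝ) < p := by exact_mod_cast hp
    set q := 1 / (S.rho * S.x t) with hq
    have hq0 : 0 < q := by positivity
    have hxv : S.x t ≤ S.x (t + 2 ^ k) := Par.x_mono hh (by
      have : (0 : ℤ) ≤ 2 ^ k := by positivity
      linarith)
    have hq2 : p * ε₀ / (S.rho * S.x (t + 2 ^ k)) ≤ p * ε₀ * q := by
      have : p * ε₀ * q = p * ε₀ / (S.rho * S.x t) := by rw [hq]; ring
      rw [this]
      apply div_le_div_of_nonneg_left (by positivity) (by positivity)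
      exact mul_le_mul_of_nonneg_left hxv hρ.le
    have hq1 : p * ε₀ / (S.rho * S.x t) = p * ε₀ * q := by rw [hq]; ring
    rw [hq1] at h1
    -- the difference of the inverses
    set u := S.h * S.l p - Real.log p with hu
    have hu1 : |u| ≤ 1 := hl.trans (by linarith)
    have hxt : 1 / S.x t' = p * Real.exp u / S.x t := by
      rw [ht', Par.x_sub, Real.exp_neg]
      have h5 : Real.exp (S.h * S.l p) = p * Real.exp u := by
        rw [hu, Real.exp_sub, Real.exp_log hp0]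
        field_simp
      have h6 : (S.h * ((S.l p : ℤ) : ℝ)) = S.h * S.l p := rfl
      rw [h5]
      have h7 : 0 < Real.exp u := Real.exp_pos u
      field_simp
    have hexp : |1 - Real.exp u| ≤ S.h := by
      have h8 := Real.abs_exp_sub_one_le hu1
      rw [abs_sub_comm]
      linarith
    have hinv : |(p : ℝ) / S.x t - 1 / S.x t'| ≤ p * S.h / S.x t := by
      rw [hxt]
      have h9 : (p : ℝ) / S.x t - p * Real.exp u / S.x t = (p / S.x t) * (1 - Real.exp u) := by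
        ring
      rw [h9, abs_mul, abs_of_pos (by positivity : (0 : ℝ) < p / S.x t)]
      calc (p : ℝ) / S.x t * |1 - Real.exp u| ≤ p / S.x t * S.h := by gcongr
        _ = p * S.h / S.x t := by ring
    have hTc : |T * c * (p / S.x t - 1 / S.x t')| ≤ p * q * (ε₁ * (ε' / 1000)) := by
      rw [abs_mul, abs_mul]
      calc |T| * |c| * |(p : ℝ) / S.x t - 1 / S.x t'| ≤
            (200 * ε₁ / S.rho ^ 2) * 1 * (p * S.h / S.x t) := by gcongr
        _ ≤ (200 * ε₁ / S.rho ^ 2) * 1 * (p * S.rho ^ 4 / S.x t) := by gcongr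
        _ = p * q * (ε₁ * (200 * S.rho ^ 3)) := by
            rw [hq]
            field_simp
        _ ≤ p * q * (ε₁ * (ε' / 1000)) := by gcongr
    have hpe : p * ε₀ * q ≤ p * q * (ε₁ * (ε' / 100)) := by
      calc p * ε₀ * q = p * q * ε₀ := by ring
        _ ≤ p * q * (ε' * ε₁ / 100) := by gcongr
        _ = _ := by ring
    have hR : (p * (ε₁ / (S.rho * S.x t))) * (ε' / 40) = p * q * (ε₁ * (ε' / 40)) := by
      rw [hq]; ring
    rw [hR]
    have hε' : 0 ≤ ε' := by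
      have : 0 < S.rho ^ 3 := by positivity
      linarith
    have h10 : 0 ≤ p * q * (ε₁ * ε') := by positivity
    calc |E2 - E1 + T * c * (p / S.x t - 1 / S.x t')| ≤
          |E2 - E1| + |T * c * (p / S.x t - 1 / S.x t')| := abs_add_le _ _
      _ ≤ |E2| + |E1| + |T * c * (p / S.x t - 1 / S.x t')| := by gcongr; exact abs_sub _ _
      _ ≤ p * ε₀ * q + p * ε₀ * q + p * q * (ε₁ * (ε' / 1000)) := by
          have := h2.trans hq2
          gcongr
      _ ≤ p * q * (ε₁ * (ε' / 40)) := by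
          have e1 : p * q * (ε₁ * (ε' / 1000)) = p * q * (ε₁ * ε') / 1000 := by ring
          have e2 : p * q * (ε₁ * (ε' / 100)) = p * q * (ε₁ * ε') / 100 := by ring
          have e3 : p * q * (ε₁ * (ε' / 40)) = p * q * (ε₁ * ε') / 40 := by ring
          rw [e1, e3]
          rw [e2] at hpe
          linarith

/-- The ratio. -/
theorem ratio {S : Par} {p : ℕ} {t : ℤ} (hp : 1 ≤ p) (hh : 0 < S.h) (hh1 : S.h ≤ 1 / 100)
    (hl : |S.h * S.l p - Real.log p| ≤ S.h / 2) :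
    ∃ R : ℝ, S.x (t - S.l p) * p = S.x t * R ∧ |R - 1| ≤ S.h := by
  have hp0 : (0 : ℝ) < p := by exact_mod_cast hp
  set u := S.h * S.l p - Real.log p with hu
  refine ⟨Real.exp (-u), ?_, ?_⟩
  · rw [Par.x_sub, mul_assoc]
    congr 1
    have h5 : S.h * S.l p = u + Real.log p := by rw [hu]; ring
    rw [h5, neg_add, Real.exp_add, Real.exp_neg (Real.log p), Real.exp_log hp0, mul_assoc,
      inv_mul_cancel₀ hp0.ne', mul_one]
  · have hu1 : |(-u)| ≤ 1 := by rw [abs_neg]; linarith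
    have h8 := Real.abs_exp_sub_one_le hu1
    rw [abs_neg] at h8
    linarith

/-- The two cases for one edge. -/
theorem cases {S : Par} {ε₁ ε' T : ℝ} {θ : ℤ → ℝ} {p k : ℕ} {t : ℤ} {n : ℤ} {e R : ℝ}
    (hp : 1 ≤ p) (hρ : 0 < S.rho) (hh : 0 < S.h) (hh1 : S.h ≤ 1 / 100)
    (hhε : 5 * S.h ≤ ε' / 1000) (hε₁ : 0 < ε₁) (hε' : 0 < ε') (hε'1 : ε' ≤ 1)
    (hsm : p * (ε₁ / (S.rho * S.x t)) ≤ 1 / 100)
    (hg : gg S θ k T (t - S.l p) = p * gg S θ k T t + e + n)
    (he : |e| ≤ (p * (ε₁ / (S.rho * S.x t))) * (ε' / 40))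
    (hR : S.x (t - S.l p) * p = S.x t * R) (hR1 : |R - 1| ≤ S.h)
    (hF : ε' < ‖F2 S ε₁ θ k T (t - S.l p) - F2 S ε₁ θ k T t‖) :
    5 < |S.rho * S.x t / ε₁ * sr (gg S θ k T t)| ∧
      nd (p * gg S θ k T t) ≤ p * (4.5 * (ε₁ / (S.rho * S.x t))) := by
  have hx := Par.x_pos (S := S) t
  have hx' := Par.x_pos (S := S) (t - S.l p)
  have hp0 : (0 : ℝ) < p := by exact_mod_cast hp
  set ζ := ε₁ / (S.rho * S.x t) with hζ
  have hζ0 : 0 < ζ := by positivity
  set y := S.rho * S.x t / ε₁ * sr (gg S θ k T t) with hy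
  set y' := S.rho * S.x (t - S.l p) / ε₁ * sr (gg S θ k T (t - S.l p)) with hy'
  have hsry : sr (gg S θ k T t) = y * ζ := by
    rw [hy, hζ]; field_simp
  obtain ⟨hR2, hR3⟩ := abs_le.1 hR1
  have hR0 : 0.99 ≤ R := by linarith
  have hR4 : R ≤ 1.01 := by linarith
  have hRp : 0 < R := by linarith
  have hcoef : S.rho * S.x (t - S.l p) / ε₁ * (p * ζ) = R := by
    have : S.rho * S.x (t - S.l p) / ε₁ * (p * ζ) = (S.x (t - S.l p) * p) / S.x t := by
      rw [hζ]; field_simp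
    rw [this, hR]
    field_simp
  rw [F2_eq, F2_eq, ← hy, ← hy'] at hF
  by_cases h5 : |y| ≤ 5
  · exfalso
    have hw : |p * sr (gg S θ k T t) + e| < 1 / 2 := by
      rw [hsry]
      calc |p * (y * ζ) + e| ≤ |p * (y * ζ)| + |e| := abs_add_le _ _
        _ ≤ (p * ζ) * 5 + (p * ζ) * (ε' / 40) := by
            apply add_le_add _ he
            rw [abs_mul, abs_mul, abs_of_pos hp0, abs_of_pos hζ0]
            calc (p : ℝ) * (|y| * ζ) = (p * ζ) * |y| := by ring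
              _ ≤ (p * ζ) * 5 := by gcongr
        _ ≤ (1 / 100) * 5 + (1 / 100) * (ε' / 40) := by gcongr
        _ < 1 / 2 := by linarith
    have hs : sr (gg S θ k T (t - S.l p)) = p * sr (gg S θ k T t) + e := by
      have h1 : gg S θ k T (t - S.l p) = (p * sr (gg S θ k T t) + e) +
          ((p * round (gg S θ k T t) + n : ℤ) : ℝ) := by
        rw [hg]
        unfold sr
        push_cast
        ring
      rw [h1, sr_eq hw]
    have hyy : y' = R * y + S.rho * S.x (t - S.l p) / ε₁ * e := by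
      rw [hy', hs, hsry]
      calc S.rho * S.x (t - S.l p) / ε₁ * (p * (y * ζ) + e) =
            (S.rho * S.x (t - S.l p) / ε₁ * (p * ζ)) * y +
              S.rho * S.x (t - S.l p) / ε₁ * e := by ring
        _ = _ := by rw [hcoef]
    have he2 : |S.rho * S.x (t - S.l p) / ε₁ * e| ≤ R * (ε' / 40) := by
      rw [abs_mul, abs_of_pos (by positivity : 0 < S.rho * S.x (t - S.l p) / ε₁)]
      calc S.rho * S.x (t - S.l p) / ε₁ * |e| ≤
            S.rho * S.x (t - S.l p) / ε₁ * ((p * ζ) * (ε' / 40)) := by gcongr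
        _ = (S.rho * S.x (t - S.l p) / ε₁ * (p * ζ)) * (ε' / 40) := by ring
        _ = R * (ε' / 40) := by rw [hcoef]
    have hd : |y' - y| ≤ ε' / 4 := by
      have e1 : y' - y = (R - 1) * y + S.rho * S.x (t - S.l p) / ε₁ * e := by rw [hyy]; ring
      rw [e1]
      calc |(R - 1) * y + S.rho * S.x (t - S.l p) / ε₁ * e| ≤
            |(R - 1) * y| + |S.rho * S.x (t - S.l p) / ε₁ * e| := abs_add_le _ _
        _ ≤ S.h * 5 + 1.01 * (ε' / 40) := by
            apply add_le_add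
            · rw [abs_mul]; gcongr
            · refine he2.trans ?_; gcongr
        _ ≤ ε' / 4 := by linarith
    have := Phi_lip y' y
    linarith
  · have h5' : 5 < |y| := not_le.1 h5
    refine ⟨h5', ?_⟩
    have hy4 : |y'| < 4 := by
      by_contra hc
      rw [Phi_large (not_lt.1 hc), Phi_large (by linarith)] at hF
      rw [sub_self, norm_zero] at hF
      linarith
    have hsr' : |sr (gg S θ k T (t - S.l p))| ≤ 4 * (ε₁ / (S.rho * S.x (t - S.l p))) := by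
      have e1 : sr (gg S θ k T (t - S.l p)) = y' * (ε₁ / (S.rho * S.x (t - S.l p))) := by
        rw [hy']; field_simp
      rw [e1, abs_mul, abs_of_pos (by positivity : 0 < ε₁ / (S.rho * S.x (t - S.l p)))]
      gcongr
    have e2 : ε₁ / (S.rho * S.x (t - S.l p)) = (p * ζ) / R := by
      rw [eq_div_iff hRp.ne', ← hcoef]
      field_simp
    have e3 : nd (p * gg S θ k T t) ≤ |sr (gg S θ k T (t - S.l p))| + |e| := by
      have e4 : p * gg S θ k T t = (gg S θ k T (t - S.l p) - e) - n := by rw [hg]; ring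
      rw [e4, nd_sub_int, abs_sr]
      exact (nd_sub_le _ _).trans (by gcongr; exact nd_le_abs _)
    have e5 : (p * ζ) / R ≤ (p * ζ) * 1.02 := by
      rw [div_le_iff₀ hRp]
      have : (0 : ℝ) < p * ζ := by positivity
      nlinarith
    rw [e2] at hsr'
    have hpz : (0 : ℝ) < p * ζ := by positivity
    calc nd (p * gg S θ k T t) ≤ 4 * ((p * ζ) / R) + (p * ζ) * (ε' / 40) := by
          refine e3.trans (add_le_add hsr' he)
      _ ≤ 4 * ((p * ζ) * 1.02) + (p * ζ) * (1 / 40) := by gcongr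
      _ ≤ p * (4.5 * ζ) := by nlinarith

/-- Large `X`: small `rho`. -/
theorem rho_small {S : Par} (hS : S.Ok) {c : ℝ} (hc : 0 < c) (hX : (1 / c) ^ (4 : ℝ) ≤ S.X) :
    S.rho ≤ c := by
  have h1 : 1 / c ≤ S.X ^ (1 / 4 : ℝ) := by
    have h2 := Real.rpow_le_rpow (by positivity) hX (by norm_num : (0 : ℝ) ≤ 1 / 4)
    rw [← Real.rpow_mul (by positivity)] at h2
    norm_num at h2
    rw [one_div]
    exact h2
  have h3 := hS.hr1
  have h4 := hS.hr0
  have h5 : S.rho * (1 / c) ≤ 1 := (mul_le_mul_of_nonneg_left h1 h4.le).trans h3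
  rw [mul_one_div, div_le_one hc] at h5
  exact h5

theorem pf_E2P (hTWO : T_TWO) (hSIZ : T_SIZ) (hWTS : T_WTS) : T_E2P := by
  obtain ⟨X1, hX1⟩ := hSIZ
  obtain ⟨-, hW, -⟩ := hWTS
  intro K ε₁ ε' hK hε₁ hε₁1 hε' hε'1
  obtain ⟨X2, hX2⟩ := hW (2 * K) (by omega)
  obtain ⟨X3, hX3⟩ := LL_large (100 + 4 / ε')
  refine ⟨max (max X1 X2) (max X3 ((1 / (ε' / 10 ^ 6)) ^ (4 : ℝ))), ?_⟩
  intro S ε₀ T θ φ hS hSK hX hε₀ hε₀1 hRel hT k hk
  have hXa : X1 ≤ S.X := ((le_max_left _ _).trans (le_max_left _ _)).trans hX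
  have hXb : X2 ≤ S.X := ((le_max_right _ _).trans (le_max_left _ _)).trans hX
  have hXc : X3 ≤ S.X := ((le_max_left _ _).trans (le_max_right _ _)).trans hX
  have hXd : (1 / (ε' / 10 ^ 6)) ^ (4 : ℝ) ≤ S.X :=
    ((le_max_right _ _).trans (le_max_right _ _)).trans hX
  obtain ⟨hL1, hP100, -, hρ100, hhρ, -, -, -, hI, hl, -, hN, hcard⟩ := hX1 S hS hXa
  have hW' : ∑ p ∈ S.Q, 1 / (p : ℝ) ≤ 2 * K := by
    have := hX2 S.X hXb
    unfold Par.Q
    rw [hSK]
    push_cast at this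
    exact this
  have hLL : 100 + 4 / ε' ≤ S.L := hX3 S.X hXc
  have h4ε : 0 < 4 / ε' := by positivity
  have hPL : S.L ≤ S.P := by
    have h1 : S.P = Real.exp S.L := rfl
    rw [h1]
    have := Real.add_one_le_exp S.L
    linarith
  have hρ := hS.hr0
  have hh := hS.hh
  have hρs : S.rho ≤ ε' / 10 ^ 6 := rho_small hS (by positivity) hXd
  have hρ2 : S.rho ^ 2 ≤ 1 / 10000 := by
    have := pow_le_pow_left₀ hρ.le hρ100 2
    norm_num at this
    linarith
  have hρ3 : S.rho ^ 3 ≤ S.rho := by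
    have : S.rho ^ 3 = S.rho ^ 2 * S.rho := by ring
    rw [this]
    nlinarith
  have hρ4 : S.rho ^ 4 ≤ S.rho := by
    have : S.rho ^ 4 = S.rho ^ 3 * S.rho := by ring
    rw [this]
    nlinarith
  have hhr : S.h ≤ S.rho := hhρ.trans hρ4
  have hh100 : S.h ≤ 1 / 100 := hhr.trans hρ100
  have h200 : 200 * S.rho ^ 3 ≤ ε' / 1000 := by
    have e : ε' / 10 ^ 6 * 200 ≤ ε' / 1000 := by
      rw [div_mul_eq_mul_div, div_le_div_iff₀ (by positivity) (by positivity)]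
      nlinarith
    linarith
  have h5h : 5 * S.h ≤ ε' / 1000 := by
    have e : ε' / 10 ^ 6 * 5 ≤ ε' / 1000 := by
      rw [div_mul_eq_mul_div, div_le_div_iff₀ (by positivity) (by positivity)]
      nlinarith
    linarith
  have hP0 : 0 < S.P := Par.P_pos
  have hP1 : 1 ≤ S.P := by linarith
  have hKS : 1 ≤ S.K := by rw [hSK]; exact hK
  have hQ : ∀ p ∈ S.Q, S.P < p ∧ (p : ℝ) ≤ S.P ^ (2 * S.K) ∧ p.Prime := fun p hp =>
    (mem_Pr (by positivity)).1 hp
  have hinv : ∀ t ∈ S.I, ε₁ / (S.rho * S.x t) ≤ 1 / S.P ^ (100 * S.K) := by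
    intro t ht
    have hx := Par.x_pos (S := S) t
    calc ε₁ / (S.rho * S.x t) ≤ 1 / (S.rho * S.x t) := by gcongr
      _ ≤ _ := one_div_le_one_div_of_le (by positivity) (hI t ht).1
  have hpw : S.P ^ (4 * S.K) * (1 / S.P ^ (100 * S.K)) ≤ 1 / S.P := by
    have h1 : S.P ^ (100 * S.K) = S.P ^ (4 * S.K) * S.P ^ (96 * S.K) := by
      rw [← pow_add]; congr 1; ring
    have h2 : S.P ≤ S.P ^ (96 * S.K) := by
      calc S.P = S.P ^ 1 := (pow_one _).symm
        _ ≤ S.P ^ (96 * S.K) := pow_le_pow_right₀ hP1 (by omega)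
    have h3 : 0 < S.P ^ (4 * S.K) := by positivity
    rw [h1, mul_one_div, div_le_div_iff₀ (by positivity) hP0]
    calc S.P ^ (4 * S.K) * S.P ≤ S.P ^ (4 * S.K) * S.P ^ (96 * S.K) := by gcongr
      _ = 1 * (S.P ^ (4 * S.K) * S.P ^ (96 * S.K)) := by ring
  have hP24 : S.P ^ (2 * S.K) ≤ S.P ^ (4 * S.K) := pow_le_pow_right₀ hP1 (by omega)
  have hsm : ∀ p ∈ S.Q, ∀ t ∈ S.I, p * (ε₁ / (S.rho * S.x t)) ≤ 1 / 100 := by
    intro p hp t ht
    have hx := Par.x_pos (S := S) t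
    calc p * (ε₁ / (S.rho * S.x t)) ≤ S.P ^ (4 * S.K) * (1 / S.P ^ (100 * S.K)) := by
          apply mul_le_mul ((hQ p hp).2.1.trans hP24) (hinv t ht) (by positivity)
            (by positivity)
      _ ≤ 1 / S.P := hpw
      _ ≤ 1 / 100 := one_div_le_one_div_of_le (by norm_num) hP100
  -- the bad points
  set E : ℕ → ℤ → Prop := fun p t => t - S.l p ∈ S.I ∧ ¬ OEd S ε₀ θ φ p t with hE
  set B : ℕ → ℤ → Prop := fun p t => t ∈ S.I ∧
    5 < |S.rho * S.x t / ε₁ * sr (gg S θ k T t)| ∧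
      nd (p * gg S θ k T t) ≤ p * (4.5 * (ε₁ / (S.rho * S.x t))) with hB
  have hBd : ∑ p ∈ S.Q, S.cnt (B p) ≤ S.N := by
    rw [← hcard]
    apply cnt_disj
    intro t ht p hp q hq hBp hBq
    by_contra hpq
    have hx := Par.x_pos (S := S) t
    obtain ⟨g1, -, -⟩ := hTWO p q (gg S θ k T t) (4.5 * (ε₁ / (S.rho * S.x t)))
      (hQ p hp).2.2 (hQ q hq).2.2 hpq hBp.2.2 hBq.2.2 (by
        have hpq2 : (p : ℝ) * q ≤ S.P ^ (4 * S.K) := by
          have h1 : S.P ^ (4 * S.K) = S.P ^ (2 * S.K) * S.P ^ (2 * S.K) := by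
            rw [← pow_add]; congr 1; ring
          rw [h1]
          apply mul_le_mul (hQ p hp).2.1 (hQ q hq).2.1 (by positivity) (by positivity)
        calc 2 * p * q * (4.5 * (ε₁ / (S.rho * S.x t))) =
              9 * ((p * q) * (ε₁ / (S.rho * S.x t))) := by ring
          _ ≤ 9 * (S.P ^ (4 * S.K) * (1 / S.P ^ (100 * S.K))) := by
              have := hinv t ht
              gcongr
          _ ≤ 9 * (1 / S.P) := by gcongr
          _ ≤ 9 * (1 / 100) := by gcongr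
          _ < 1 := by norm_num)
    have h5 := hBp.2.1
    have h6 : |S.rho * S.x t / ε₁ * sr (gg S θ k T t)| ≤ 4.5 := by
      rw [abs_mul, abs_of_pos (by positivity : 0 < S.rho * S.x t / ε₁), abs_sr]
      calc S.rho * S.x t / ε₁ * nd (gg S θ k T t) ≤
            S.rho * S.x t / ε₁ * (4.5 * (ε₁ / (S.rho * S.x t))) := by gcongr
        _ = 4.5 := by field_simp
    linarith
  have hBw : ∑ p ∈ S.Q, 1 / (p : ℝ) * S.cnt (B p) ≤ S.N / S.P := by
    calc ∑ p ∈ S.Q, 1 / (p : ℝ) * S.cnt (B p) ≤ ∑ p ∈ S.Q, 1 / S.P * S.cnt (B p) := by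
          apply sum_le_sum
          intro p hp
          apply mul_le_mul_of_nonneg_right _ (Par.cnt_nonneg _)
          exact one_div_le_one_div_of_le hP0 (hQ p hp).1.le
      _ = 1 / S.P * ∑ p ∈ S.Q, S.cnt (B p) := by rw [mul_sum]
      _ ≤ 1 / S.P * S.N := by gcongr
      _ = S.N / S.P := by ring
  have hone : ∀ p ∈ S.Q, S.cnt (fun t => t - S.l p ∈ S.I ∧
      ε' < ‖F2 S ε₁ θ k T (t - S.l p) - F2 S ε₁ θ k T t‖) ≤
      2 * S.cnt (E p) + 2 * (2 : ℝ) ^ k + S.cnt (B p) := by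
    intro p hp
    have hp1 : 1 ≤ p := (hQ p hp).2.2.one_le
    have c1 : S.cnt (fun t => t + (2 ^ k : ℤ) ∈ S.I ∧ E p (t + 2 ^ k)) ≤ S.cnt (E p) :=
      Par.cnt_shift (E p) (2 ^ k)
    have c2 : S.cnt (fun t => t + (2 ^ k : ℤ) ∉ S.I) ≤ (2 : ℝ) ^ k := by
      refine (Par.cnt_out (2 ^ k : ℤ)).trans (le_of_eq ?_)
      push_cast
      exact abs_of_pos (by positivity)
    have c3 : S.cnt (fun t => t + (-S.l p) ∈ S.I ∧ (t + (-S.l p)) + (2 ^ k : ℤ) ∉ S.I) ≤
        (2 : ℝ) ^ k :=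
      (Par.cnt_shift (fun s => s + (2 ^ k : ℤ) ∉ S.I) (-S.l p)).trans c2
    have c4 : S.cnt (fun t => t - S.l p ∈ S.I ∧
        ε' < ‖F2 S ε₁ θ k T (t - S.l p) - F2 S ε₁ θ k T t‖) ≤
        S.cnt (E p) + (S.cnt (fun t => t + (2 ^ k : ℤ) ∉ S.I) +
        (S.cnt (fun t => t + (-S.l p) ∈ S.I ∧ (t + (-S.l p)) + (2 ^ k : ℤ) ∉ S.I) +
        (S.cnt (fun t => t + (2 ^ k : ℤ) ∈ S.I ∧ E p (t + 2 ^ k)) + S.cnt (B p)))) := by
      refine le_trans (Par.cnt_le_add (F := E p) (G := fun t => t + (2 ^ k : ℤ) ∉ S.I ∨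
        ((t + (-S.l p) ∈ S.I ∧ (t + (-S.l p)) + (2 ^ k : ℤ) ∉ S.I) ∨
        ((t + (2 ^ k : ℤ) ∈ S.I ∧ E p (t + 2 ^ k)) ∨ B p t))) ?_) ?_
      · intro t ht hbad
        obtain ⟨ht', hF⟩ := hbad
        by_cases a1 : OEd S ε₀ θ φ p t
        swap
        · exact Or.inl ⟨ht', a1⟩
        right
        by_cases a2 : t + (2 ^ k : ℤ) ∈ S.I
        swap
        · exact Or.inl a2
        right
        by_cases a3 : (t + (-S.l p)) + (2 ^ k : ℤ) ∈ S.I
        swap
        · exact Or.inl ⟨by rw [← sub_eq_add_neg]; exact ht', a3⟩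
        right
        by_cases a4 : OEd S ε₀ θ φ p (t + 2 ^ k)
        swap
        · refine Or.inl ⟨a2, ?_, a4⟩
          have : t + 2 ^ k - S.l p = (t + (-S.l p)) + (2 ^ k : ℤ) := by ring
          rw [this]
          exact a3
        right
        obtain ⟨n, e, hg, he⟩ := edge (T := T) hp1 hh (by linarith) hρ hhρ h200 (hl p hp1) hε₁
          hε₀ hε₀1 hT a1 a4
        obtain ⟨R, hR, hR1⟩ := ratio (t := t) hp1 hh hh100 (hl p hp1)
        exact ⟨ht, cases hp1 hρ hh hh100 h5h hε₁ hε' hε'1 (hsm p hp t ht) hg he hR hR1 hF⟩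
      · refine add_le_add le_rfl ((Par.cnt_or _ _).trans (add_le_add le_rfl ?_))
        refine (Par.cnt_or _ _).trans (add_le_add le_rfl (Par.cnt_or _ _))
    linarith
  -- the sum
  have hEs : ∑ p ∈ S.Q, 1 / (p : ℝ) * S.cnt (E p) ≤ ε' / 4 * S.N := hRel.edg
  have h2k : (2 : ℝ) ^ k ≤ 1 / S.h := by
    have h1 : (2 : ℝ) ^ k ≤ 2 ^ S.J := pow_le_pow_right₀ (by norm_num) hk
    have h2 := hS.hJ
    have h3 : Real.log 2 ≤ 1 := by
      have := Real.log_two_lt_d9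
      linarith
    rw [le_div_iff₀ hh]
    calc (2 : ℝ) ^ k * S.h ≤ 2 ^ S.J * S.h := by gcongr
      _ = S.h * 2 ^ S.J := mul_comm _ _
      _ ≤ 1 := by rw [h2]; exact h3
  have hhN : 1 / S.h ≤ S.N / (12 * K * S.L) := by
    have h1 := hS.hI1
    rw [hSK] at h1
    have hK0 : (0 : ℝ) < K := by exact_mod_cast hK
    rw [div_le_div_iff₀ hh (by positivity)]
    linarith
  have hsum : ∑ p ∈ S.Q, 1 / (p : ℝ) * S.cnt (fun t => t - S.l p ∈ S.I ∧
      ε' < ‖F2 S ε₁ θ k T (t - S.l p) - F2 S ε₁ θ k T t‖) ≤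
      2 * (ε' / 4 * S.N) + 2 * (2 : ℝ) ^ k * (2 * K) + S.N / S.P := by
    calc _ ≤ ∑ p ∈ S.Q, 1 / (p : ℝ) *
          (2 * S.cnt (E p) + 2 * (2 : ℝ) ^ k + S.cnt (B p)) := by
          apply sum_le_sum
          intro p hp
          exact mul_le_mul_of_nonneg_left (hone p hp) (by positivity)
      _ = 2 * (∑ p ∈ S.Q, 1 / (p : ℝ) * S.cnt (E p)) +
          2 * (2 : ℝ) ^ k * (∑ p ∈ S.Q, 1 / (p : ℝ)) +
          ∑ p ∈ S.Q, 1 / (p : ℝ) * S.cnt (B p) := by
          rw [mul_sum, mul_sum, ← sum_add_distrib, ← sum_add_distrib]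
          apply sum_congr rfl
          intro p _
          ring
      _ ≤ _ := by gcongr
  refine hsum.trans ?_
  have hK0 : (0 : ℝ) < K := by exact_mod_cast hK
  have hL0 : 0 < S.L := by linarith
  have b1 : 2 * (2 : ℝ) ^ k * (2 * K) ≤ S.N / S.L := by
    calc 2 * (2 : ℝ) ^ k * (2 * K) ≤ 2 * (S.N / (12 * K * S.L)) * (2 * K) := by
          have := h2k.trans hhN
          gcongr
      _ = S.N / S.L / 3 := by field_simp; ring
      _ ≤ S.N / S.L := by
          have : 0 ≤ S.N / S.L := by positivity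
          linarith
  have b2 : S.N / S.L ≤ ε' / 4 * S.N := by
    rw [div_le_iff₀ hL0]
    have h1 : 4 / ε' ≤ S.L := by linarith
    rw [div_le_iff₀ hε'] at h1
    have : 1 ≤ ε' / 4 * S.L := by linarith
    calc S.N = 1 * S.N := (one_mul _).symm
      _ ≤ (ε' / 4 * S.L) * S.N := by gcongr
      _ = ε' / 4 * S.N * S.L := by ring
  have b3 : S.N / S.P ≤ S.N / S.L := by
    apply div_le_div_of_nonneg_left hN.le hL0 hPL
  linarith

end Pool.Agent.H50.N4D
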