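import Pool.Agent.H6.N4D.TB

/-!
# The orientation is compatible with one edge
-/

set_option autoImplicit false

open Finset Pool.Agent.H6.N4D

namespace Pool.Agent.H50.N4D

theorem sign_mul {a b : ℝ} (ha : a = 1 ∨ a = -1) (hb : b = 1 ∨ b = -1) :
    a * b = 1 ∨ a * b = -1 := by
  rcases ha with h | h <;> rcases hb with h' | h' <;> subst h <;> subst h' <;> simp

theorem sign_sq {a : ℝ} (ha : a = 1 ∨ a = -1) : a * a = 1 := by
  rcases ha with h | h <;> subst h <;> norm_num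

theorem sign_abs {a : ℝ} (ha : a = 1 ∨ a = -1) (x : ℝ) : |a * x| = |x| := by
  rcases ha with h | h <;> subst h <;> simp

theorem sign_int {a : ℝ} (ha : a = 1 ∨ a = -1) : ∃ i : ℤ, (i : ℝ) = a := by
  rcases ha with h | h
  · exact ⟨1, by rw [h]; norm_num⟩
  · exact ⟨-1, by rw [h]; norm_num⟩

/-- The comparison of the signs. -/
theorem core (θ1 θ2 θ1' θ2' σ σ' τ τ' e1 e2 η : ℝ) (m : ℕ) (hσ : σ = 1 ∨ σ = -1)
    (hσ' : σ' = 1 ∨ σ' = -1) (hτ : τ = 1 ∨ τ = -1) (hτ' : τ' = 1 ∨ τ' = -1)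
    (h1 : nd (θ1' - τ * (m * θ1)) ≤ e1) (h2 : nd (θ2' - τ' * (m * θ2)) ≤ e2)
    (hsm : m * |sr (θ2 - σ * θ1)| + |sr (θ2' - σ' * θ1')| + e1 + e2 < η)
    (hsm1 : m * |sr (θ2 - σ * θ1)| + |sr (θ2' - σ' * θ1')| + e1 + e2 < 1)
    (hη : η ≤ nd (2 * θ1')) (hbig : e1 + e2 < m * |sr (θ2 - σ * θ1)|) :
    σ' = τ * τ' * σ ∧ 0 < τ' * sr (θ2' - σ' * θ1') * sr (θ2 - σ * θ1) := by
  obtain ⟨k1, hk1⟩ := exists_int (θ1' - τ * (m * θ1))
  obtain ⟨k2, hk2⟩ := exists_int (θ2' - τ' * (m * θ2))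
  set δ := sr (θ2 - σ * θ1) with hδ
  set δ' := sr (θ2' - σ' * θ1') with hδ'
  set a := round (θ2 - σ * θ1) with ha
  set b := round (θ2' - σ' * θ1') with hb
  have hδa : δ = θ2 - σ * θ1 - a := rfl
  have hδb : δ' = θ2' - σ' * θ1' - b := rfl
  set E1 := θ1' - τ * (m * θ1) - k1 with hE1
  set E2 := θ2' - τ' * (m * θ2) - k2 with hE2
  have hE1' : |E1| ≤ e1 := by rw [hk1]; exact h1
  have hE2' : |E2| ≤ e2 := by rw [hk2]; exact h2
  set ρ := τ * τ' * σ with hρ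
  have hρs : ρ = 1 ∨ ρ = -1 := sign_mul (sign_mul hτ hτ') hσ
  obtain ⟨ρi, hρi⟩ := sign_int hρs
  obtain ⟨τi, hτi⟩ := sign_int hτ'
  have hτ2 := sign_sq hτ
  set N0 : ℤ := b - τi * m * a - k2 + ρi * k1 with hN0
  have hkey : (ρ - σ') * θ1' = δ' - τ' * (m * δ) + ρ * E1 - E2 + N0 := by
    rw [hN0]
    push_cast
    rw [hρi, hτi, hδa, hδb, hE1, hE2, hρ]
    linear_combination (τ' * σ * (m * θ1)) * hτ2
  have hD : |δ' - τ' * (m * δ) + ρ * E1 - E2| ≤ m * |δ| + |δ'| + e1 + e2 := by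
    have t1 : |τ' * (m * δ)| = m * |δ| := by
      rw [sign_abs hτ', abs_mul, Nat.abs_cast]
    have t2 : |ρ * E1| = |E1| := sign_abs hρs _
    calc |δ' - τ' * (m * δ) + ρ * E1 - E2| ≤ |δ' - τ' * (m * δ) + ρ * E1| + |E2| := abs_sub _ _
      _ ≤ |δ' - τ' * (m * δ)| + |ρ * E1| + |E2| := by gcongr; exact abs_add_le _ _
      _ ≤ |δ'| + |τ' * (m * δ)| + |ρ * E1| + |E2| := by gcongr; exact abs_sub _ _
      _ ≤ _ := by rw [t1, t2]; linarith
  have hcase : ρ = σ' ∨ ρ = -σ' := by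
    rcases hρs with h | h <;> rcases hσ' with h' | h' <;> rw [h, h'] <;> norm_num
  rcases hcase with hc | hc
  · refine ⟨hc.symm, ?_⟩
    rw [hc, sub_self, zero_mul] at hkey
    have hN : N0 = 0 := by
      have : |(N0 : ℝ)| < 1 := by
        have e : (N0 : ℝ) = -(δ' - τ' * (m * δ) + σ' * E1 - E2) := by linarith
        rw [e, abs_neg, ← hc]
        linarith
      have h3 : |N0| < 1 := by exact_mod_cast this
      exact Int.abs_lt_one_iff.1 h3
    rw [hN, Int.cast_zero, add_zero, ← hc] at hkey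
    have hτ'2 := sign_sq hτ'
    have hd : τ' * δ' * δ = m * δ * δ + τ' * (E2 - ρ * E1) * δ := by
      linear_combination (-(τ' * δ)) * hkey + (m * δ * δ) * hτ'2
    rw [hd]
    have hδ0 : 0 < |δ| := by
      rcases (abs_nonneg δ).lt_or_eq with h | h
      · exact h
      · exfalso
        rw [← h, mul_zero] at hbig
        have := (abs_nonneg E1).trans hE1'
        have := (abs_nonneg E2).trans hE2'
        linarith
    have t3 : |τ' * (E2 - ρ * E1) * δ| ≤ (e1 + e2) * |δ| := by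
      rw [abs_mul, sign_abs hτ']
      apply mul_le_mul_of_nonneg_right _ hδ0.le
      calc |E2 - ρ * E1| ≤ |E2| + |ρ * E1| := abs_sub _ _
        _ ≤ e1 + e2 := by rw [sign_abs hρs]; linarith
    have t4 : (m : ℝ) * δ * δ = m * |δ| * |δ| := by
      rw [mul_assoc, mul_assoc, abs_mul_abs_self]
    have t5 : (e1 + e2) * |δ| < m * |δ| * |δ| := mul_lt_mul_of_pos_right hbig hδ0
    have t6 := (abs_le.1 t3).1
    rw [t4]
    linarith
  · exfalso
    have h3 : nd (2 * θ1') ≤ m * |δ| + |δ'| + e1 + e2 := by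
      have h4 : nd (-σ' * (2 * θ1')) = nd (2 * θ1') := by
        apply nd_pm
        rcases hσ' with h | h <;> rw [h] <;> norm_num
      rw [← h4]
      have h5 : -σ' * (2 * θ1') = δ' - τ' * (m * δ) + ρ * E1 - E2 + N0 := by
        rw [← hkey, hc]; ring
      rw [h5, nd_add_int]
      exact (nd_le_abs _).trans hD
    linarith

theorem sg_sign (θ : ℤ → ℝ) (k : ℕ) (t : ℤ) : sg θ k t = 1 ∨ sg θ k t = -1 := by
  unfold sg
  split_ifs
  · exact Or.inl rfl
  · exact Or.inr rfl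

theorem sg_nd (θ : ℤ → ℝ) (k : ℕ) (t : ℤ) : |sr (θ (t + 2 ^ k) - sg θ k t * θ t)| =
    min (nd (θ (t + 2 ^ k) - θ t)) (nd (θ (t + 2 ^ k) + θ t)) := by
  rw [abs_sr]
  unfold sg
  split_ifs with h
  · rw [one_mul, min_eq_left h]
  · rw [min_eq_right (le_of_not_ge h)]
    congr 1
    ring

theorem oo_sign (S : Par) (ε₁ : ℝ) (θ : ℤ → ℝ) (k : ℕ) (t : ℤ) :
    oo S ε₁ θ k t = 1 ∨ oo S ε₁ θ k t = -1 := by
  unfold oo
  rcases sg_sign θ k t with h | h <;> split_ifs <;> rw [h] <;> norm_num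

/-- The size of the difference. -/
theorem size {S : Par} {ε₁ s : ℝ} {θ : ℤ → ℝ} {k : ℕ} {t : ℤ} (hε : 0 < ε₁)
    (hρ : 0 < S.rho) (hs3 : 3 ≤ s) (hs7 : s ≤ 7) (h : |F1 S ε₁ θ k t - s| ≤ 1 / 4) :
    2.75 * (ε₁ / (S.rho * S.x t)) ≤ |sr (θ (t + 2 ^ k) - sg θ k t * θ t)| ∧
    |sr (θ (t + 2 ^ k) - sg θ k t * θ t)| ≤ 7.25 * (ε₁ / (S.rho * S.x t)) := by
  have hx := Par.x_pos (S := S) t
  set D := |sr (θ (t + 2 ^ k) - sg θ k t * θ t)| with hD
  have hy : y1 S ε₁ θ k t = S.rho * S.x t / ε₁ * D := by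
    unfold y1
    rw [hD, sg_nd]
  obtain ⟨h1, h2⟩ := abs_le.1 h
  have h3 : F1 S ε₁ θ k t = y1 S ε₁ θ k t := by
    unfold F1 at h2 ⊢
    apply min_eq_left
    by_contra hlt
    rw [min_eq_right (le_of_not_ge hlt)] at h2
    linarith
  rw [h3, hy] at h1 h2
  have e : D = (S.rho * S.x t / ε₁ * D) * (ε₁ / (S.rho * S.x t)) := by
    field_simp
  have hq : 0 < ε₁ / (S.rho * S.x t) := by positivity
  constructor
  · rw [e]
    apply mul_le_mul_of_nonneg_right _ hq.le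
    linarith
  · rw [e]
    apply mul_le_mul_of_nonneg_right _ hq.le
    linarith

/-- The orientations. -/
theorem oo_rel {S : Par} {ε₁ τ τ' : ℝ} {θ : ℤ → ℝ} {k : ℕ} {t t' : ℤ} (hε : 0 < ε₁)
    (hρ : 0 < S.rho) (hτ' : τ' = 1 ∨ τ' = -1)
    (h1 : sg θ k t' = τ * τ' * sg θ k t)
    (h2 : 0 < τ' * sr (θ (t' + 2 ^ k) - sg θ k t' * θ t') *
      sr (θ (t + 2 ^ k) - sg θ k t * θ t)) :
    oo S ε₁ θ k t' = τ * oo S ε₁ θ k t := by
  have hpos : ∀ t, (0 ≤ ys S ε₁ θ k t ↔ 0 ≤ sr (θ (t + 2 ^ k) - sg θ k t * θ t)) := by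
    intro t
    unfold ys
    have hx := Par.x_pos (S := S) t
    exact mul_nonneg_iff_of_pos_left (by positivity)
  unfold oo
  simp only [hpos]
  set δ := sr (θ (t + 2 ^ k) - sg θ k t * θ t)
  set δ' := sr (θ (t' + 2 ^ k) - sg θ k t' * θ t')
  rw [h1]
  rcases hτ' with h | h
  · rw [h, one_mul] at h2
    rcases lt_or_ge δ 0 with hd | hd
    · have hd' : δ' < 0 := by
        by_contra hc
        have := mul_nonpos_of_nonneg_of_nonpos (not_lt.1 hc) hd.le
        linarith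
      rw [if_neg (not_le.2 hd), if_neg (not_le.2 hd'), h]
      ring
    · have hd' : 0 ≤ δ' := by
        by_contra hc
        have := mul_nonpos_of_nonpos_of_nonneg (not_le.1 hc).le hd
        linarith
      rw [if_pos hd, if_pos hd', h]
      ring
  · rw [h] at h2
    rcases lt_or_ge δ 0 with hd | hd
    · have hd' : 0 ≤ δ' := by
        by_contra hc
        have := mul_pos_of_neg_of_neg (not_le.1 hc) hd
        linarith
      rw [if_neg (not_le.2 hd), if_pos hd', h]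
      ring
    · have hd' : δ' < 0 := by
        by_contra hc
        have := mul_nonneg (not_lt.1 hc) hd
        linarith
      rw [if_pos hd, if_neg (not_le.2 hd'), h]
      ring

theorem pf_ORE (hSIZ : T_SIZ) : T_ORE := by
  obtain ⟨X1, hX1⟩ := hSIZ
  intro K ε₁ η hK hε hε1 hη
  obtain ⟨X2, hX2⟩ := LL_large (16 + 16 / η)
  refine ⟨max X1 X2, ?_⟩
  intro S ε₀ s k θ φ hS hSK hX hε₀ hε₀1 hk hs3 hs7
  obtain ⟨-, hP100, -, -, -, -, -, -, hI, -, -, -, -⟩ := hX1 S hS ((le_max_left _ _).trans hX)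
  have hLL := hX2 S.X ((le_max_right _ _).trans hX)
  have hPbig : 16 + 16 / η ≤ S.P := by
    have h1 : S.P = Real.exp (LL S.X) := rfl
    rw [h1]
    have := Real.add_one_le_exp (LL S.X)
    linarith
  have hP0 : 0 < S.P := Par.P_pos
  have hP1 : 1 ≤ S.P := by linarith
  have hρ := hS.hr0
  have hKS : 1 ≤ S.K := by rw [hSK]; exact hK
  have hη0 : 0 < 16 / η := by positivity
  -- the size
  have hinv : ∀ t ∈ S.I, 1 / (S.rho * S.x t) ≤ 1 / S.P ^ (100 * S.K) := by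
    intro t ht
    exact one_div_le_one_div_of_le (by positivity) (hI t ht).1
  have hpow : S.P ^ (2 * S.K) * (1 / S.P ^ (100 * S.K)) ≤ 1 / S.P := by
    have h1 : S.P ^ (100 * S.K) = S.P ^ (2 * S.K) * S.P ^ (98 * S.K) := by
      rw [← pow_add]; congr 1; ring
    rw [h1]
    have h2 : S.P ≤ S.P ^ (98 * S.K) := by
      calc S.P = S.P ^ 1 := (pow_one _).symm
        _ ≤ S.P ^ (98 * S.K) := pow_le_pow_right₀ hP1 (by omega)
    have h3 : 0 < S.P ^ (2 * S.K) := by positivity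
    rw [mul_one_div, div_le_div_iff₀ (by positivity) hP0]
    calc S.P ^ (2 * S.K) * S.P ≤ S.P ^ (2 * S.K) * S.P ^ (98 * S.K) := by gcongr
      _ = 1 * (S.P ^ (2 * S.K) * S.P ^ (98 * S.K)) := by ring
  have hfin : 15 * (1 / S.P) < η ∧ 15 * (1 / S.P) < 1 := by
    constructor
    · rw [mul_one_div, div_lt_iff₀ hP0]
      have h1 : 16 / η * η = 16 := div_mul_cancel₀ _ hη.ne'
      have h2 : (16 + 16 / η) * η ≤ S.P * η := mul_le_mul_of_nonneg_right hPbig hη.le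
      nlinarith
    · rw [mul_one_div, div_lt_iff₀ hP0]
      linarith
  constructor
  · intro p t hp ht ht' htv htv' hE1 hE2 hF hF' hnd
    have hp0 : (0 : ℝ) ≤ p := Nat.cast_nonneg _
    have hp1 : 1 ≤ p := by
      rcases hp with h | h
      · exact ((mem_Pr (by positivity)).1 h).2.2.one_le
      · omega
    have hp1' : (1 : ℝ) ≤ p := by exact_mod_cast hp1
    have hpP : (p : ℝ) ≤ S.P ^ (2 * S.K) := by
      rcases hp with h | h
      · exact ((mem_Pr (by positivity)).1 h).2.1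
      · rw [h]
        calc ((2 : ℕ) : ℝ) ≤ S.P := by push_cast; linarith
          _ = S.P ^ 1 := (pow_one _).symm
          _ ≤ S.P ^ (2 * S.K) := pow_le_pow_right₀ hP1 (by omega)
    obtain ⟨τ, hτ, hτ1, hτ2⟩ := hE1
    obtain ⟨τ', hτ', hτ1', -⟩ := hE2
    have heq : t + 2 ^ k - S.l p = t - S.l p + 2 ^ k := by ring
    rw [heq] at hτ1'
    obtain ⟨a1, a2⟩ := size hε hρ hs3 hs7 hF
    obtain ⟨b1, b2⟩ := size hε hρ hs3 hs7 hF'
    set t' := t - S.l p with ht'def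
    have hx := Par.x_pos (S := S) t
    have hx' := Par.x_pos (S := S) t'
    set q := 1 / (S.rho * S.x t) with hq
    have hq0 : 0 < q := by positivity
    have hqe : ∀ c : ℝ, c / (S.rho * S.x t) = c * q := fun c => by rw [hq]; ring
    have hxv : S.x t ≤ S.x (t + 2 ^ k) := Par.x_mono hS.hh (by
      have : (0 : ℤ) ≤ 2 ^ k := by positivity
      linarith)
    have he2 : p * ε₀ / (S.rho * S.x (t + 2 ^ k)) ≤ p * ε₀ * q := by
      rw [← hqe]
      apply div_le_div_of_nonneg_left (by positivity) (by positivity)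
      exact mul_le_mul_of_nonneg_left hxv hρ.le
    rw [hqe] at hτ1 a1 a2
    have hqP : p * q ≤ 1 / S.P := by
      calc p * q ≤ S.P ^ (2 * S.K) * (1 / S.P ^ (100 * S.K)) := by
            apply mul_le_mul hpP (hinv t ht) hq0.le (by positivity)
        _ ≤ 1 / S.P := hpow
    have hq'P : ε₁ / (S.rho * S.x t') ≤ 1 / S.P := by
      have h1 : (1 : ℝ) ≤ S.P ^ (2 * S.K) := one_le_pow₀ hP1
      calc ε₁ / (S.rho * S.x t') ≤ 1 / (S.rho * S.x t') := by gcongr
        _ ≤ 1 / S.P ^ (100 * S.K) := hinv t' ht'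
        _ = 1 * (1 / S.P ^ (100 * S.K)) := (one_mul _).symm
        _ ≤ S.P ^ (2 * S.K) * (1 / S.P ^ (100 * S.K)) := by gcongr
        _ ≤ 1 / S.P := hpow
    have hpq : 0 < (p : ℝ) * q := by positivity
    have c1 : (p : ℝ) * |sr (θ (t + 2 ^ k) - sg θ k t * θ t)| ≤ 7.25 * (1 / S.P) := by
      calc (p : ℝ) * |sr (θ (t + 2 ^ k) - sg θ k t * θ t)| ≤ p * (7.25 * (ε₁ * q)) := by gcongr
        _ = 7.25 * ε₁ * (p * q) := by ring
        _ ≤ 7.25 * 1 * (1 / S.P) := by gcongr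
        _ = 7.25 * (1 / S.P) := by ring
    have c2 : |sr (θ (t' + 2 ^ k) - sg θ k t' * θ t')| ≤ 7.25 * (1 / S.P) :=
      b2.trans (by gcongr)
    have c3 : p * ε₀ * q ≤ (1 / 100) * (1 / S.P) := by
      calc p * ε₀ * q = ε₀ * (p * q) := by ring
        _ ≤ (1 / 100) * (1 / S.P) := by
            apply mul_le_mul _ hqP hpq.le (by norm_num)
            linarith
    have hPinv : 0 < 1 / S.P := by positivity
    have hsum : p * |sr (θ (t + 2 ^ k) - sg θ k t * θ t)| +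
        |sr (θ (t' + 2 ^ k) - sg θ k t' * θ t')| + p * ε₀ * q + p * ε₀ * q <
        15 * (1 / S.P) := by
      linarith
    have hbig : p * ε₀ * q + p * ε₀ * q < p * |sr (θ (t + 2 ^ k) - sg θ k t * θ t)| := by
      have d1 : (p : ℝ) * (2.75 * (ε₁ * q)) ≤ p * |sr (θ (t + 2 ^ k) - sg θ k t * θ t)| := by
        gcongr
      have d2 : p * ε₀ * q ≤ (1 / 100) * (ε₁ * (p * q)) := by
        calc p * ε₀ * q = ε₀ * (p * q) := by ring
          _ ≤ (ε₁ / 100) * (p * q) := by gcongr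
          _ = (1 / 100) * (ε₁ * (p * q)) := by ring
      have d3 : 0 < ε₁ * (p * q) := by positivity
      have d4 : (p : ℝ) * (2.75 * (ε₁ * q)) = 2.75 * (ε₁ * (p * q)) := by ring
      linarith
    obtain ⟨g1, g2⟩ := core (θ t) (θ (t + 2 ^ k)) (θ t') (θ (t' + 2 ^ k)) (sg θ k t) (sg θ k t')
      τ τ' (p * ε₀ * q) (p * ε₀ * q) η p (sg_sign _ _ _) (sg_sign _ _ _) hτ hτ' hτ1
      (hτ1'.trans he2) (hsum.trans hfin.1) (hsum.trans hfin.2) hnd hbig
    have hoo := oo_rel hε hρ hτ' g1 g2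
    set o := oo S ε₁ θ k t with ho
    have hos : o = 1 ∨ o = -1 := oo_sign _ _ _ _ _
    have hτo : τ * o = 1 ∨ τ * o = -1 := sign_mul hτ hos
    have hτ2' := sign_sq hτ
    refine ⟨?_, ?_⟩
    · change nd (oo S ε₁ θ k t' * θ t' - p * (o * θ t)) ≤ _
      rw [hoo]
      have e : τ * o * θ t' - p * (o * θ t) = τ * o * (θ t' - τ * (p * θ t)) := by
        linear_combination (o * (p * θ t)) * hτ2'
      rw [e, nd_pm hτo, hqe]
      exact hτ1
    · change nd (oo S ε₁ θ k t' * φ t' - (o * φ t + o * θ t * (p * (S.n t' : ℝ) - S.n t) + 1 / 2))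
        ≤ _
      rw [hoo]
      have hz : ∃ z : ℤ, (z : ℝ) = o / 2 - 1 / 2 := by
        rcases hos with h | h
        · exact ⟨0, by rw [h]; norm_num⟩
        · exact ⟨-1, by rw [h]; norm_num⟩
      obtain ⟨z, hz⟩ := hz
      have e : τ * o * φ t' - (o * φ t + o * θ t * (p * (S.n t' : ℝ) - S.n t) + 1 / 2) =
          τ * o * (φ t' - τ * (φ t + θ t * (p * (S.n t' : ℝ) - S.n t) + 1 / 2)) + z := by
        rw [hz]
        linear_combination (o * (φ t + θ t * (p * (S.n t' : ℝ) - S.n t) + 1 / 2)) * hτ2'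
      rw [e, nd_add_int, nd_pm hτo]
      exact hτ2
  · intro w t hw ht ht' htv htv' hE1 hE2 hF hF' hnd
    obtain ⟨τ, hτ, hτ1, hτ2⟩ := hE1
    obtain ⟨τ', hτ', hτ1', -⟩ := hE2
    have heq : t + 2 ^ k + (w : ℤ) = t + w + 2 ^ k := by ring
    rw [heq] at hτ1'
    obtain ⟨a1, a2⟩ := size hε hρ hs3 hs7 hF
    obtain ⟨b1, b2⟩ := size hε hρ hs3 hs7 hF'
    set t' := t + (w : ℤ) with ht'def
    have hx := Par.x_pos (S := S) t
    have hx' := Par.x_pos (S := S) t'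
    set q := 1 / (S.rho * S.x t) with hq
    have hq0 : 0 < q := by positivity
    have hqe : ∀ c : ℝ, c / (S.rho * S.x t) = c * q := fun c => by rw [hq]; ring
    have hxv : S.x t ≤ S.x (t + 2 ^ k) := Par.x_mono hS.hh (by
      have : (0 : ℤ) ≤ 2 ^ k := by positivity
      linarith)
    have he2 : ε₀ / (S.rho * S.x (t + 2 ^ k)) ≤ ε₀ * q := by
      rw [← hqe]
      apply div_le_div_of_nonneg_left hε₀ (by positivity)
      exact mul_le_mul_of_nonneg_left hxv hρ.le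
    rw [hqe] at hτ1 a1 a2
    have h1P : (1 : ℝ) ≤ S.P ^ (2 * S.K) := one_le_pow₀ hP1
    have hone : 1 / S.P ^ (100 * S.K) ≤ 1 / S.P := by
      calc 1 / S.P ^ (100 * S.K) = 1 * (1 / S.P ^ (100 * S.K)) := (one_mul _).symm
        _ ≤ S.P ^ (2 * S.K) * (1 / S.P ^ (100 * S.K)) := by gcongr
        _ ≤ 1 / S.P := hpow
    have hqP : q ≤ 1 / S.P := (hinv t ht).trans hone
    have hq'P : ε₁ / (S.rho * S.x t') ≤ 1 / S.P := by
      calc ε₁ / (S.rho * S.x t') ≤ 1 / (S.rho * S.x t') := by gcongr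
        _ ≤ 1 / S.P ^ (100 * S.K) := hinv t' ht'
        _ ≤ 1 / S.P := hone
    have c1 : |sr (θ (t + 2 ^ k) - sg θ k t * θ t)| ≤ 7.25 * (1 / S.P) := by
      calc |sr (θ (t + 2 ^ k) - sg θ k t * θ t)| ≤ 7.25 * (ε₁ * q) := a2
        _ ≤ 7.25 * (1 * (1 / S.P)) := by gcongr
        _ = 7.25 * (1 / S.P) := by ring
    have c2 : |sr (θ (t' + 2 ^ k) - sg θ k t' * θ t')| ≤ 7.25 * (1 / S.P) :=
      b2.trans (by gcongr)
    have c3 : ε₀ * q ≤ (1 / 100) * (1 / S.P) := by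
      apply mul_le_mul _ hqP hq0.le (by norm_num)
      linarith
    have hPinv : 0 < 1 / S.P := by positivity
    have hsum : ((1 : ℕ) : ℝ) * |sr (θ (t + 2 ^ k) - sg θ k t * θ t)| +
        |sr (θ (t' + 2 ^ k) - sg θ k t' * θ t')| + ε₀ * q + ε₀ * q < 15 * (1 / S.P) := by
      rw [Nat.cast_one, one_mul]
      linarith
    have hbig : ε₀ * q + ε₀ * q <
        ((1 : ℕ) : ℝ) * |sr (θ (t + 2 ^ k) - sg θ k t * θ t)| := by
      rw [Nat.cast_one, one_mul]
      have d2 : ε₀ * q ≤ (1 / 100) * (ε₁ * q) := by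
        calc ε₀ * q ≤ (ε₁ / 100) * q := by gcongr
          _ = (1 / 100) * (ε₁ * q) := by ring
      have d3 : 0 < ε₁ * q := by positivity
      linarith
    obtain ⟨g1, g2⟩ := core (θ t) (θ (t + 2 ^ k)) (θ t') (θ (t' + 2 ^ k)) (sg θ k t) (sg θ k t')
      τ τ' (ε₀ * q) (ε₀ * q) η 1 (sg_sign _ _ _) (sg_sign _ _ _) hτ hτ'
      (by rw [Nat.cast_one, one_mul]; exact hτ1)
      (by rw [Nat.cast_one, one_mul]; exact hτ1'.trans he2)
      (hsum.trans hfin.1) (hsum.trans hfin.2) hnd hbig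
    have hoo := oo_rel hε hρ hτ' g1 g2
    set o := oo S ε₁ θ k t with ho
    have hos : o = 1 ∨ o = -1 := oo_sign _ _ _ _ _
    have hτo : τ * o = 1 ∨ τ * o = -1 := sign_mul hτ hos
    have hτ2' := sign_sq hτ
    refine ⟨?_, ?_⟩
    · change nd (oo S ε₁ θ k t' * θ t' - o * θ t) ≤ _
      rw [hoo]
      have e : τ * o * θ t' - o * θ t = τ * o * (θ t' - τ * θ t) := by
        linear_combination (o * θ t) * hτ2'
      rw [e, nd_pm hτo, hqe]
      exact hτ1
    · change nd (oo S ε₁ θ k t' * φ t' - (o * φ t + o * θ t * ((S.n t' : ℝ) - S.n t))) ≤ _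
      rw [hoo]
      have e : τ * o * φ t' - (o * φ t + o * θ t * ((S.n t' : ℝ) - S.n t)) =
          τ * o * (φ t' - τ * (φ t + θ t * ((S.n t' : ℝ) - S.n t))) := by
        linear_combination (o * (φ t + θ t * ((S.n t' : ℝ) - S.n t))) * hτ2'
      rw [e, nd_pm hτo]
      exact hτ2

end Pool.Agent.H50.N4D
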